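import Pool.Agent.MWA.StmtsP

set_option autoImplicit false

/-!
# Block MWA, row MJQ: the distributive law for two letter words, period n
-/

namespace Pool.Agent.MWA.H23

open Pool.Agent.Helper14_MV Pool.Agent.Helper2_MV Pool.Agent.MVO Pool.Agent.MWL Pool.Agent.MWS

theorem rtr {θ : FIC} {u v w : List ℕ} (h : RR θ u v) (h' : RR θ v w) : RR θ u w := θ.trans h h'

theorem lst_uniq {k : ℕ} {a : ℕ → ℕ} {i j : ℕ} (h : Lst k a i) (h' : Lst k a j) : i = j := by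
  rcases Nat.lt_trichotomy i j with h1 | h1 | h1
  · exact absurd (h.2.2 j h1 h'.1) h'.2.1
  · exact h1
  · exact absurd (h'.2.2 i h1 h.1) h.2.1

theorem deg_ne_one {k : ℕ} {B : ℕ → List ℕ} (h : Mlt k B) (c : ℕ) : deg k (ty B c) ≠ 1 := by
  intro h1
  have h2 : ∑ j ∈ Finset.range (k + 1), ty B c j ≠ 0 := by
    have h3 : ∑ j ∈ Finset.range (k + 1), ty B c j = 1 := h1
    rw [h3]
    exact one_ne_zero
  obtain ⟨j, hj, hj2⟩ := Finset.exists_ne_zero_of_sum_ne_zero h2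
  have h4 : c ∈ B j := by
    rw [← List.count_pos_iff]
    exact Nat.pos_of_ne_zero hj2
  have h5 := h j (by rw [Finset.mem_range] at hj; omega) c h4
  have h6 : deg k (fun j => (B j).count c) = 1 := h1
  omega

theorem two_le_deg {k : ℕ} {a : ℕ → ℕ} {i : ℕ} (h1 : deg k a ≠ 1) (h2 : Lst k a i) :
    2 ≤ deg k a := by
  have h3 : a i ≤ deg k a := by
    unfold deg
    exact Finset.single_le_sum (f := a) (fun j _ => Nat.zero_le _)
      (Finset.mem_range.2 (by have := h2.1; omega))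
  have h4 := h2.2.1
  omega

theorem mjq (hOLQ : OlqStmt) (hJPQ : JpqStmt) (hGW2 : Gw2Stmt)
    (hW2R : W2rStmt) (hW2X : W2xStmt) (hBTF : BtfStmt) : MjqStmt := by
  intro n β hA hcap hO hJ ρ σ τ hρ hσ hτ nρ nσ nτ k B B' okB okB' tB tB' hs ht
  obtain ⟨ψ, hψ⟩ : ∃ ψ, ψ = psi ρ σ τ := ⟨_, rfl⟩
  have hρτ : FIC.inf ρ τ ≤ ψ := by
    rw [hψ]
    exact FIC.le_sup_left _ _
  have hστ : FIC.inf σ τ ≤ ψ := by
    rw [hψ]
    exact FIC.le_sup_right _ _
  have hβψ : β ≤ ψ := FIC.le_trans' (FIC.le_inf hρ hτ) hρτ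
  have hψτ : ψ ≤ τ := by
    rw [hψ]
    exact FIC.sup_le (FIC.inf_le_right _ _) (FIC.inf_le_right _ _)
  have hψs : ψ ≤ FIC.sup ρ σ := by
    rw [hψ]
    exact FIC.sup_le (FIC.le_trans' (FIC.inf_le_left _ _) (FIC.le_sup_left _ _))
      (FIC.le_trans' (FIC.inf_le_left _ _) (FIC.le_sup_right _ _))
  have hβs : β ≤ FIC.sup ρ σ := FIC.le_trans' hρ (FIC.le_sup_left _ _)
  have hcl := hA.cl
  have ns0 : NS k 0 := by
    rintro ⟨h1, -⟩
    omega
  have ns1 : NS k 1 := by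
    rintro ⟨h1, -⟩
    omega
  have L := hOLQ n β hcap hO ρ σ τ hρ hσ hτ nρ nσ nτ k B B' okB okB' hs ht
  rw [← hψ] at L ⊢
  have La := L 0 ns0
  have Lb := L 1 ns1
  have da := deg_ne_one okB.ml 0
  have db := deg_ne_one okB.ml 1
  obtain ⟨a, ha⟩ : ∃ a, a = ty B 0 := ⟨_, rfl⟩
  obtain ⟨b, hb⟩ : ∃ b, b = ty B 1 := ⟨_, rfl⟩
  obtain ⟨a', ha'⟩ : ∃ a', a' = ty B' 0 := ⟨_, rfl⟩
  obtain ⟨b', hb'⟩ : ∃ b', b' = ty B' 1 := ⟨_, rfl⟩
  obtain ⟨e, he⟩ : ∃ e : ℕ → Bool, e = fun j => decide ((B j).getLast? = some 0) := ⟨_, rfl⟩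
  obtain ⟨e', he'⟩ : ∃ e' : ℕ → Bool, e' = fun j => decide ((B' j).getLast? = some 0) := ⟨_, rfl⟩
  have g1 := hGW2 β hcl k B e okB tB (by
    intro i _ _
    rw [he]
    exact decide_eq_true_iff)
  have g2 := hGW2 β hcl k B' e' okB' tB' (by
    intro i _ _
    rw [he']
    exact decide_eq_true_iff)
  rw [← ha, ← hb] at g1
  rw [← ha', ← hb'] at g2
  rw [← ha, ← ha'] at La
  rw [← hb, ← hb'] at Lb
  rw [← ha] at da
  rw [← hb] at db
  have t1 : RR ψ (w2 k a b e') (w2 k a' b' e') := (hBTF ψ k a a' b b' La Lb).1 e'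
  -- transfer of the goal
  have tr : ∀ θ : FIC, ψ ≤ θ → RR θ (asm k B) (asm k B') → RR θ (w2 k a b e) (w2 k a b e') := by
    intro θ hθ h
    have hβθ : β ≤ θ := FIC.le_trans' hβψ hθ
    exact rtr (hβθ _ _ g1.symm) (rtr h (rtr (hβθ _ _ g2) (hθ _ _ t1.symm)))
  have X : RR ψ (w2 k a b e) (w2 k a b e') := by
    by_cases hc : ∀ i, Lst k a i → Lst k b i → e i = e' i
    · exact hβψ _ _ (hW2R β hcl k a b e e' da db hc)
    · push Not at hc
      obtain ⟨i, hi1, hi2, hi3⟩ := hc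
      have x1 := hW2X (FIC.sup ρ σ) (ClA.mono hcl hβs) k a b i e e' da db hi1 hi2 hi3
        (tr _ hψs hs)
      have x2 := hW2X τ (ClA.mono hcl hτ) k a b i e e' da db hi1 hi2 hi3 (tr _ hψτ ht)
      have x3 : Bt ψ k a b i := by
        rcases hJPQ n β hA hcap hO hJ ρ σ hρ hσ nρ nσ k a b i (two_le_deg da hi1) (two_le_deg db hi2)
          hi1 hi2 x1 with h | h
        · exact fun e0 => hρτ _ _ ⟨h e0, x2 e0⟩
        · exact fun e0 => hστ _ _ ⟨h e0, x2 e0⟩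
      refine rtr (x3 e) (hβψ _ _ (hW2R β hcl k a b (flp e i) e' da db ?_))
      intro i' h1 _
      have h3 : i' = i := lst_uniq h1 hi1
      rw [h3]
      unfold flp
      rw [if_pos rfl]
      revert hi3
      cases e i <;> cases e' i <;> simp
  exact rtr (hβψ _ _ g1) (rtr X (rtr t1 (hβψ _ _ g2.symm)))

end Pool.Agent.MWA.H23
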